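import Pool.Agent.H49.FOS.S1

/-!
# FOS: a dominant polynomial map is onto over a nonempty open set
-/

set_option autoImplicit false

namespace Pool.FOS

open MvPolynomial PrimeSpectrum

theorem t_dom : DOMStmt := by
  intro M L _ _ φ hφ
  classical
  have hinj : Function.Injective (aeval φ : MvPolynomial L ℂ →ₐ[ℂ] MvPolynomial M ℂ) := hφ
  obtain ⟨f, hf⟩ : ∃ f : MvPolynomial L ℂ →+* MvPolynomial M ℂ,
      f = (aeval φ : MvPolynomial L ℂ →ₐ[ℂ] MvPolynomial M ℂ).toRingHom := ⟨_, rfl⟩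
  have hfi : Function.Injective f := by
    rw [hf]
    exact hinj
  have hfp : f.FinitePresentation := by
    refine RingHom.FinitePresentation.of_comp_finiteType
      (algebraMap ℂ (MvPolynomial L ℂ)) ?_ ?_
    · have h1 : f.comp (algebraMap ℂ (MvPolynomial L ℂ)) = algebraMap ℂ (MvPolynomial M ℂ) := by
        rw [hf]
        exact AlgHom.comp_algebraMap (aeval φ : MvPolynomial L ℂ →ₐ[ℂ] MvPolynomial M ℂ)
      rw [h1, RingHom.finitePresentation_algebraMap]
      infer_instance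
    · rw [RingHom.finiteType_algebraMap]
      infer_instance
  obtain ⟨S, hS⟩ := exists_constructibleSetData_iff.2 (isConstructible_range_comap hfp)
  have hbot : (⟨⊥, Ideal.isPrime_bot⟩ : PrimeSpectrum (MvPolynomial L ℂ)) ∈
      Set.range (comap f) := by
    refine ⟨⟨⊥, Ideal.isPrime_bot⟩, PrimeSpectrum.ext ?_⟩
    show Ideal.comap f ⊥ = ⊥
    exact (RingHom.injective_iff_ker_eq_bot f).1 hfi
  rw [← hS, ConstructibleSetData.toSet, Set.mem_iUnion₂] at hbot
  obtain ⟨c, hc, hcb⟩ := hbot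
  obtain ⟨h1, h2⟩ := hcb
  have hg : ∀ i, c.g i = 0 := by
    intro i
    have h3 := h1 (Set.mem_range_self i)
    exact h3
  have hP : c.f ≠ 0 := by
    intro h
    refine h2 ?_
    rw [PrimeSpectrum.mem_zeroLocus]
    intro x hx
    rw [Set.mem_singleton_iff] at hx
    rw [hx, h]
    exact Submodule.zero_mem _
  refine ⟨c.f, hP, fun y hy => ?_⟩
  obtain ⟨I, hI⟩ : ∃ I : Ideal (MvPolynomial L ℂ), I = vanishingIdeal ℂ ({y} : Set (L → ℂ)) :=
    ⟨_, rfl⟩
  have hmem : ∀ p : MvPolynomial L ℂ, p ∈ I ↔ eval y p = 0 := by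
    intro p
    rw [hI, mem_vanishingIdeal_iff]
    simp [MvPolynomial.coe_aeval_eq_eval]
  have hmax : I.IsMaximal := isMaximal_iff_eq_vanishingIdeal_singleton.2 ⟨y, hI⟩
  have hmemS : (⟨I, hmax.isPrime⟩ : PrimeSpectrum (MvPolynomial L ℂ)) ∈ Set.range (comap f) := by
    rw [← hS, ConstructibleSetData.toSet, Set.mem_iUnion₂]
    refine ⟨c, hc, ?_, ?_⟩
    · rintro x ⟨i, rfl⟩
      rw [hg i]
      exact Submodule.zero_mem _
    · intro h
      have h3 : c.f ∈ I := h (Set.mem_singleton _)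
      exact hy ((hmem _).1 h3)
  obtain ⟨⟨Q, hQ⟩, hQI⟩ := hmemS
  have hQI' : Ideal.comap f Q = I := congrArg PrimeSpectrum.asIdeal hQI
  obtain ⟨m, hm, hQm⟩ := Ideal.exists_le_maximal Q hQ.ne_top
  have hcm : Ideal.comap f m = I := by
    symm
    refine hmax.eq_of_le ?_ ?_
    · exact (Ideal.comap_ne_top f hm.ne_top)
    · rw [← hQI']
      exact Ideal.comap_mono hQm
  obtain ⟨u, hu⟩ := isMaximal_iff_eq_vanishingIdeal_singleton.1 hm
  refine ⟨u, fun l => ?_⟩
  have h4 : (X l - C (y l) : MvPolynomial L ℂ) ∈ Ideal.comap f m := by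
    rw [hcm, hmem]
    simp
  rw [Ideal.mem_comap, hu, mem_vanishingIdeal_iff] at h4
  have h5 := h4 u (Set.mem_singleton _)
  rw [hf] at h5
  simp [MvPolynomial.coe_aeval_eq_eval] at h5
  exact sub_eq_zero.1 h5

end Pool.FOS
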