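import Pool.Agent.H49.FOS.S1

/-!
# FOS: Descartes' rule
-/

set_option autoImplicit false

namespace Pool.FOS.H62

open Polynomial

theorem sv_card (n : ℕ) : ∀ P : ℝ[X], P ≠ 0 → P.support.card ≤ n →
    P.signVariations + 1 ≤ n := by
  induction n with
  | zero =>
    intro P h0 h
    exact absurd (Polynomial.support_eq_empty.1 (Finset.card_eq_zero.1 (Nat.le_zero.1 h))) h0
  | succ n ih =>
    intro P h0 h
    by_cases h1 : P.eraseLead = 0
    · have h2 := P.eraseLead_add_monomial_natDegree_leadingCoeff
      rw [h1, zero_add] at h2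
      rw [← h2, signVariations_monomial]
      omega
    · have h2 := Polynomial.eraseLead_support_card_lt h0
      have h3 := ih P.eraseLead h1 (by omega)
      have h4 := signVariations_le_eraseLead_succ (P := P)
      omega

theorem des_real {s m : ℕ} {t : Fin s → ℝ} (ht : ∀ i, 0 < t i) (hi : Function.Injective t)
    {g : ℝ[X]} (hd : ∀ i, (X - C (t i)) ^ m ∣ g) (hc : g.support.card ≤ s * m) : g = 0 := by
  by_contra h0
  have h1 := sv_card (s * m) g h0 hc
  have h2 := roots_countP_pos_le_signVariations (P := g)
  have h3 : s * m ≤ g.roots.countP (0 < ·) := by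
    have h4 : (∑ i : Fin s, Multiset.replicate m (t i)) ≤ g.roots := by
      rw [Multiset.le_iff_count]
      intro a
      rw [Multiset.count_sum', count_roots]
      by_cases ha : ∃ i, t i = a
      · obtain ⟨i, rfl⟩ := ha
        rw [Finset.sum_eq_single i]
        · rw [Multiset.count_replicate_self]
          exact (le_rootMultiplicity_iff h0).2 (hd i)
        · intro j _ hj
          rw [Multiset.count_replicate, if_neg]
          exact fun h => hj (hi h)
        · intro h
          exact absurd (Finset.mem_univ i) h
      · rw [Finset.sum_eq_zero]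
        · exact Nat.zero_le _
        · intro j _
          rw [Multiset.count_replicate, if_neg]
          exact fun h => ha ⟨j, h⟩
    refine le_trans ?_ (Multiset.countP_le_of_le _ h4)
    have h6 : Multiset.countP (0 < ·) (∑ i : Fin s, Multiset.replicate m (t i)) =
        ∑ i : Fin s, Multiset.countP (0 < ·) (Multiset.replicate m (t i)) :=
      map_sum (Multiset.countPAddMonoidHom (fun x : ℝ => 0 < x)) _ _
    rw [h6]
    have h5 : ∀ i ∈ (Finset.univ : Finset (Fin s)),
        Multiset.countP (0 < ·) (Multiset.replicate m (t i)) = m := by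
      intro i _
      rw [Multiset.countP_eq_card_filter, Multiset.filter_eq_self.2, Multiset.card_replicate]
      intro a ha
      rw [Multiset.eq_of_mem_replicate ha]
      exact ht i
    rw [Finset.sum_congr rfl h5]
    simp
  omega

/-- The real part of a polynomial. -/
noncomputable def reP (f : ℂ[X]) : ℝ[X] := ∑ n ∈ f.support, monomial n (f.coeff n).re

theorem coeff_reP (f : ℂ[X]) (n : ℕ) : (reP f).coeff n = (f.coeff n).re := by
  unfold reP
  rw [finsetSum_coeff]
  simp only [coeff_monomial]
  rw [Finset.sum_ite_eq' f.support n (fun k => (f.coeff k).re)]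
  split_ifs with h
  · rfl
  · rw [notMem_support_iff.1 h]
    rfl

theorem reP_mul (q : ℂ[X]) (g : ℝ[X]) : reP (q * g.map Complex.ofRealHom) = reP q * g := by
  ext n
  rw [coeff_reP, coeff_mul, coeff_mul, Complex.re_sum]
  refine Finset.sum_congr rfl fun x _ => ?_
  rw [coeff_map, coeff_reP]
  simp

theorem reP_dvd {f : ℂ[X]} {m : ℕ} {t : ℝ} (h : (X - C (t : ℂ)) ^ m ∣ f) :
    (X - C t) ^ m ∣ reP f := by
  obtain ⟨q, rfl⟩ := h
  refine ⟨reP q, ?_⟩
  have h1 : (X - C (t : ℂ)) ^ m = ((X - C t) ^ m : ℝ[X]).map Complex.ofRealHom := by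
    rw [Polynomial.map_pow, Polynomial.map_sub, map_X, map_C]
    rfl
  rw [h1, mul_comm, reP_mul, mul_comm]

theorem reP_card (f : ℂ[X]) : (reP f).support.card ≤ f.support.card := by
  refine Finset.card_le_card fun n hn => ?_
  rw [mem_support_iff, coeff_reP] at hn
  rw [mem_support_iff]
  intro h
  rw [h] at hn
  exact hn rfl

end Pool.FOS.H62

namespace Pool.FOS

open Polynomial Pool.FOS.H62

theorem t_des : DESStmt := by
  intro s m t ht hi f hd hc
  have h1 : reP f = 0 := des_real ht hi (fun i => reP_dvd (hd i)) ((reP_card f).trans hc)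
  have h2 : reP (C (-Complex.I) * f) = 0 := by
    refine des_real ht hi (fun i => reP_dvd ((hd i).mul_left _)) ((reP_card _).trans ?_)
    refine (Finset.card_le_card fun n hn => ?_).trans hc
    rw [mem_support_iff, coeff_C_mul] at hn
    rw [mem_support_iff]
    exact right_ne_zero_of_mul hn
  ext n
  have h3 := congrArg (fun g => g.coeff n) h1
  have h4 := congrArg (fun g => g.coeff n) h2
  simp only [coeff_reP, coeff_zero, coeff_C_mul] at h3 h4
  rw [coeff_zero]
  refine Complex.ext ?_ ?_
  · exact h3
  · have h5 : (-Complex.I * f.coeff n).re = (f.coeff n).im := by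
      simp
    rw [h5] at h4
    exact h4

end Pool.FOS
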